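import Pool.Agent.helper27.Probe.Defs

/-! M0: basic facts on `H1`, `sq`, `en`. -/

open MeasureTheory Metric Set Filter Topology
open scoped ContDiff ENNReal

namespace Pool.Agent.helper27.Probe

theorem sq_nonneg' (U : Set E) (f : E → ℂ) : 0 ≤ sq U f :=
  integral_nonneg (fun _ => by positivity)

theorem en_nonneg (U : Set E) (v : E → ℂ) (g : Fin 3 → E → ℂ) : 0 ≤ en U v g :=
  add_nonneg (sq_nonneg' _ _) (Finset.sum_nonneg (fun _ _ => sq_nonneg' _ _))

theorem sq_smul (U : Set E) (c : ℂ) (f : E → ℂ) : sq U (fun y => c * f y) = ‖c‖ ^ 2 * sq U f := by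
  unfold sq
  rw [← integral_const_mul]
  congr 1
  ext y
  rw [norm_mul, mul_pow]

theorem en_smul (U : Set E) (c : ℂ) (v : E → ℂ) (g : Fin 3 → E → ℂ) :
    en U (fun y => c * v y) (fun i y => c * g i y) = ‖c‖ ^ 2 * en U v g := by
  unfold en
  rw [sq_smul]
  simp only [sq_smul]
  rw [mul_add, Finset.mul_sum]

/-- `sq` is the square of the `L²` seminorm -/
theorem sq_eq {U : Set E} {f : E → ℂ} (hf : AEStronglyMeasurable f (volume.restrict U)) :
    sq U f = (eLpNorm f 2 (volume.restrict U)).toReal ^ 2 := by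
  rw [toReal_eLpNorm hf, lpNorm_eq_integral_norm_rpow_toReal (by norm_num) (by norm_num) hf]
  unfold sq
  have h0 : (0 : ℝ) ≤ ∫ y in U, ‖f y‖ ^ 2 := integral_nonneg (fun _ => by positivity)
  simp only [ENNReal.toReal_ofNat, Real.rpow_two]
  rw [← Real.rpow_natCast, ← Real.rpow_mul h0]
  norm_num

theorem pd_eq_zero_of_notMem {φ : E → ℂ} {y : E} (hy : y ∉ tsupport φ) (i : Fin 3) :
    pd i φ y = 0 := by
  unfold pd
  have : fderiv ℝ φ y = 0 := by
    by_contra h
    exact hy (support_fderiv_subset ℝ (f := φ) h)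
  rw [this]
  rfl

theorem Test.mono {U V : Set E} {φ : E → ℂ} (h : Test V φ) (hVU : V ⊆ U) : Test U φ :=
  ⟨h.smooth, h.comp, h.supp.trans hVU⟩

theorem Test.zero_of_notMem {U : Set E} {φ : E → ℂ} (h : Test U φ) {y : E} (hy : y ∉ U) :
    φ y = 0 := image_eq_zero_of_notMem_tsupport (fun h' => hy (h.supp h'))

theorem Test.pd_zero_of_notMem {U : Set E} {φ : E → ℂ} (h : Test U φ) {y : E} (hy : y ∉ U)
    (i : Fin 3) : pd i φ y = 0 := pd_eq_zero_of_notMem (fun h' => hy (h.supp h')) i

theorem Test.continuous {U : Set E} {φ : E → ℂ} (h : Test U φ) : Continuous φ :=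
  h.smooth.continuous

theorem Test.continuous_pd {U : Set E} {φ : E → ℂ} (h : Test U φ) (i : Fin 3) :
    Continuous (pd i φ) := by
  have := h.smooth.continuous_fderiv (by simp)
  exact this.clm_apply continuous_const

theorem Test.comp_pd {U : Set E} {φ : E → ℂ} (h : Test U φ) (i : Fin 3) :
    HasCompactSupport (pd i φ) := h.comp.fderiv_apply (𝕜 := ℝ) (e i)

theorem Test.memLp {U : Set E} {φ : E → ℂ} (h : Test U φ) (p : ℝ≥0∞) (μ : Measure E)
    [IsFiniteMeasureOnCompacts μ] : MemLp φ p μ :=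
  h.continuous.memLp_of_hasCompactSupport h.comp

theorem Test.memLp_pd {U : Set E} {φ : E → ℂ} (h : Test U φ) (i : Fin 3) (p : ℝ≥0∞)
    (μ : Measure E) [IsFiniteMeasureOnCompacts μ] : MemLp (pd i φ) p μ :=
  (h.continuous_pd i).memLp_of_hasCompactSupport (h.comp_pd i)

theorem setIntegral_sub_eq {U V : Set E} {f : E → ℂ} (hVU : V ⊆ U) (hf : ∀ y ∉ V, f y = 0) :
    ∫ y in V, f y = ∫ y in U, f y := by
  rw [setIntegral_eq_integral_of_forall_compl_eq_zero hf,
    setIntegral_eq_integral_of_forall_compl_eq_zero (fun y hy => hf y (fun h => hy (hVU h)))]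

/-- restriction of an `H1` function to an open subset -/
theorem H1.mono {U V : Set E} {v : E → ℂ} {g : Fin 3 → E → ℂ} (_hU : IsOpen U) (_hV : IsOpen V)
    (h : H1 U v g) (hVU : V ⊆ U) : H1 V v g where
  memLp := h.memLp.mono_measure (Measure.restrict_mono hVU le_rfl)
  memLp_grad i := (h.memLp_grad i).mono_measure (Measure.restrict_mono hVU le_rfl)
  weak φ hφ i := by
    rw [setIntegral_sub_eq hVU (fun y hy => by rw [hφ.pd_zero_of_notMem hy, mul_zero]),
      setIntegral_sub_eq hVU (fun y hy => by rw [hφ.zero_of_notMem hy, mul_zero])]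
    exact h.weak φ (hφ.mono hVU) i

theorem H1.integrable_mul {U : Set E} {f ψ : E → ℂ} (hf : MemLp f 2 (volume.restrict U))
    (hψ : MemLp ψ 2 (volume.restrict U)) : Integrable (fun y => f y * ψ y) (volume.restrict U) :=
  hf.integrable_mul hψ

theorem H1.sub {U : Set E} {v w : E → ℂ} {g h : Fin 3 → E → ℂ} (hv : H1 U v g) (hw : H1 U w h) :
    H1 U (fun y => v y - w y) (fun i y => g i y - h i y) where
  memLp := hv.memLp.sub hw.memLp
  memLp_grad i := (hv.memLp_grad i).sub (hw.memLp_grad i)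
  weak φ hφ i := by
    simp only [sub_mul]
    rw [integral_sub (H1.integrable_mul hv.memLp (hφ.memLp_pd i _ _))
      (H1.integrable_mul hw.memLp (hφ.memLp_pd i _ _)),
      integral_sub (H1.integrable_mul (hv.memLp_grad i) (hφ.memLp _ _))
      (H1.integrable_mul (hw.memLp_grad i) (hφ.memLp _ _)), hv.weak φ hφ i, hw.weak φ hφ i]
    ring

theorem H1.add {U : Set E} {v w : E → ℂ} {g h : Fin 3 → E → ℂ} (hv : H1 U v g) (hw : H1 U w h) :
    H1 U (fun y => v y + w y) (fun i y => g i y + h i y) where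
  memLp := hv.memLp.add hw.memLp
  memLp_grad i := (hv.memLp_grad i).add (hw.memLp_grad i)
  weak φ hφ i := by
    simp only [add_mul]
    rw [integral_add (H1.integrable_mul hv.memLp (hφ.memLp_pd i _ _))
      (H1.integrable_mul hw.memLp (hφ.memLp_pd i _ _)),
      integral_add (H1.integrable_mul (hv.memLp_grad i) (hφ.memLp _ _))
      (H1.integrable_mul (hw.memLp_grad i) (hφ.memLp _ _)), hv.weak φ hφ i, hw.weak φ hφ i]
    ring

theorem H1.smul {U : Set E} {v : E → ℂ} {g : Fin 3 → E → ℂ} (c : ℂ) (hv : H1 U v g) :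
    H1 U (fun y => c * v y) (fun i y => c * g i y) where
  memLp := hv.memLp.const_mul c
  memLp_grad i := (hv.memLp_grad i).const_mul c
  weak φ hφ i := by
    simp only [mul_assoc]
    rw [integral_const_mul, integral_const_mul, hv.weak φ hφ i, mul_neg]

/-- test functions are `H1` -/
theorem Test.H1 {U W : Set E} {φ : E → ℂ} (_hU : IsOpen U) (h : Test W φ) :
    Probe.H1 U φ (fun i => pd i φ) where
  memLp := h.memLp _ _
  memLp_grad i := h.memLp_pd i _ _
  weak ψ hψ i := by
    rw [setIntegral_eq_integral_of_forall_compl_eq_zero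
        (fun y hy => by rw [hψ.pd_zero_of_notMem hy, mul_zero]),
      setIntegral_eq_integral_of_forall_compl_eq_zero
        (fun y hy => by rw [hψ.zero_of_notMem hy, mul_zero])]
    have hd1 : Differentiable ℝ φ := h.smooth.differentiable (by simp)
    have hd2 : Differentiable ℝ ψ := hψ.smooth.differentiable (by simp)
    exact integral_mul_fderiv_eq_neg_fderiv_mul_of_integrable
      (f := φ) (g := ψ) (v := e i) (μ := volume)
      ((h.memLp_pd i 2 volume).integrable_mul (hψ.memLp 2 volume))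
      ((h.memLp 2 volume).integrable_mul (hψ.memLp_pd i 2 volume))
      ((h.memLp 2 volume).integrable_mul (hψ.memLp 2 volume))
      (fun x _ => hd1 x) (fun x _ => hd2 x)

theorem Test.smul {U : Set E} {φ : E → ℂ} (c : ℂ) (h : Test U φ) : Test U (fun y => c * φ y) where
  smooth := contDiff_const.mul h.smooth
  comp := h.comp.mul_left
  supp := (closure_mono (Function.support_mul_subset_right _ _)).trans h.supp

theorem pd_smul {φ : E → ℂ} (c : ℂ) (h : Differentiable ℝ φ) (i : Fin 3) (y : E) :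
    pd i (fun y => c * φ y) y = c * pd i φ y := by
  unfold pd
  rw [fderiv_const_mul (h y)]
  rfl

theorem ZeroOuter.smul {Ω D : Set E} {v : E → ℂ} {g : Fin 3 → E → ℂ} (c : ℂ)
    (hv : ZeroOuter Ω D v g) :
    ZeroOuter Ω D (fun y => c * v y) (fun i y => c * g i y) := by
  refine ⟨hv.1.smul c, fun ε hε => ?_⟩
  rcases eq_or_ne ε ⊤ with rfl | hεt
  · obtain ⟨φ, hφ, -⟩ := hv.2 1 one_pos
    exact ⟨φ, hφ, le_top, fun i => le_top⟩
  have hcpos : (0 : ℝ≥0∞) < ε / (1 + ‖c‖ₑ) :=
    ENNReal.div_pos hε.ne' (by simp)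
  obtain ⟨φ, hφ, h1, h2⟩ := hv.2 _ hcpos
  have key : ∀ f ψ : E → ℂ, eLpNorm (fun y => f y - ψ y) 2
      (volume.restrict (Ω \ closure D)) ≤ ε / (1 + ‖c‖ₑ) →
      eLpNorm (fun y => c * f y - c * ψ y) 2 (volume.restrict (Ω \ closure D)) ≤ ε := by
    intro f ψ h
    have h3 : (fun y => c * f y - c * ψ y) = c • (fun y => f y - ψ y) := by
      funext y
      simp [mul_sub]
    rw [h3, eLpNorm_const_smul]
    calc ‖c‖ₑ * eLpNorm (fun y => f y - ψ y) 2 (volume.restrict (Ω \ closure D))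
        ≤ (1 + ‖c‖ₑ) * (ε / (1 + ‖c‖ₑ)) := mul_le_mul' le_add_self h
      _ ≤ ε := ENNReal.mul_div_le
  refine ⟨fun y => c * φ y, hφ.smul c, key _ _ h1, fun i => ?_⟩
  have h4 : (fun y => c * g i y - pd i (fun y => c * φ y) y) =
      fun y => c * g i y - c * pd i φ y := by
    funext y
    rw [pd_smul c (hφ.smooth.differentiable (by simp))]
  rw [h4]
  exact key _ _ (h2 i)

end Pool.Agent.helper27.Probe
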