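import Pool.Agent.helper27.Probe.Basic

/-! Consequences of the convergence of a needle sequence on compact sets. -/

open MeasureTheory Metric Set Filter Topology
open scoped ContDiff ENNReal

namespace Pool.Agent.helper27.Probe

theorem Singular.continuousOn {k : ℝ} {G : E → ℂ} (hG : Singular k G) : ContinuousOn G {0}ᶜ :=
  hG.smooth.continuousOn

theorem Singular.continuousOn_pd {k : ℝ} {G : E → ℂ} (hG : Singular k G) (i : Fin 3) :
    ContinuousOn (pd i G) {0}ᶜ := by
  have h := hG.smooth.continuousOn_fderiv_of_isOpen isOpen_compl_singleton (by norm_num)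
  exact h.clm_apply continuousOn_const

theorem memLp_shift {F : E → ℂ} (hF : ContinuousOn F {0}ᶜ) {x : E} {K : Set E} (hK : IsCompact K)
    (hx : x ∉ K) : MemLp (fun y => F (y - x)) 2 (volume.restrict K) := by
  have h1 : ContinuousOn (fun y => F (y - x)) K := by
    refine hF.comp (by fun_prop) ?_
    intro y hy
    simp only [mem_compl_iff, mem_singleton_iff, sub_eq_zero]
    rintro rfl
    exact hx hy
  obtain ⟨C, hC⟩ := hK.exists_bound_of_continuousOn h1
  have : IsFiniteMeasure (volume.restrict K) := ⟨by simpa using hK.measure_lt_top⟩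
  refine MemLp.of_bound (h1.aestronglyMeasurable hK.measurableSet) C ?_
  exact (ae_restrict_mem hK.measurableSet).mono (fun y hy => hC y hy)

theorem bdd_aux {K : Set E} {f : ℕ → E → ℂ} {F : E → ℂ}
    (hf : ∀ n, MemLp (f n) 2 (volume.restrict K)) (hF : MemLp F 2 (volume.restrict K))
    (h : Tendsto (fun n => eLpNorm (fun y => f n y - F y) 2 (volume.restrict K)) atTop (𝓝 0)) :
    ∃ C : ℝ, ∀ n, sq K (f n) ≤ C := by
  have h1 : Tendsto (fun n => (eLpNorm (fun y => f n y - F y) 2 (volume.restrict K)).toReal)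
      atTop (𝓝 0) := by
    have := (ENNReal.tendsto_toReal ENNReal.zero_ne_top).comp h
    rw [ENNReal.toReal_zero] at this
    exact this
  obtain ⟨C, hC⟩ := h1.bddAbove_range
  refine ⟨(C + (eLpNorm F 2 (volume.restrict K)).toReal) ^ 2, fun n => ?_⟩
  rw [sq_eq (hf n).aestronglyMeasurable]
  refine pow_le_pow_left₀ ENNReal.toReal_nonneg ?_ 2
  have h2 : eLpNorm (f n) 2 (volume.restrict K) ≤
      eLpNorm (fun y => f n y - F y) 2 (volume.restrict K) +
        eLpNorm F 2 (volume.restrict K) := by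
    have h3 := eLpNorm_add_le (μ := volume.restrict K) (p := 2)
      ((hf n).sub hF).aestronglyMeasurable hF.aestronglyMeasurable (by norm_num)
    have h4 : (f n - F) + F = f n := by simp
    rw [h4] at h3
    exact h3
  have h5 := ENNReal.toReal_mono (ENNReal.add_ne_top.2 ⟨((hf n).sub hF).eLpNorm_ne_top,
    hF.eLpNorm_ne_top⟩) h2
  refine h5.trans ?_
  rw [ENNReal.toReal_add ((hf n).sub hF).eLpNorm_ne_top hF.eLpNorm_ne_top]
  have h6 : (eLpNorm (fun y => f n y - F y) 2 (volume.restrict K)).toReal ≤ C := hC ⟨n, rfl⟩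
  have h7 : (eLpNorm (f n - F) 2 (volume.restrict K)).toReal ≤ C := h6
  linarith

/-- the quantities `sq K (v n)` are bounded on compact sets away from the needle -/
theorem bdd_compact {k : ℝ} {Ω : Set E} {G : E → ℂ} {x : E} {σ : ℝ → E} {v : ℕ → E → ℂ}
    {g : ℕ → Fin 3 → E → ℂ} (hxσ : x ∈ σ '' Icc 0 1) (hS : Singular k G)
    (hs : NeedleSeq k Ω G x σ v g) {K : Set E} (hK : IsCompact K)
    (hKΩ : K ⊆ Ω \ σ '' Icc 0 1) :
    ∃ C : ℝ, ∀ n, sq K (v n) ≤ C ∧ ∀ i, sq K (g n i) ≤ C := by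
  have hxK : x ∉ K := fun h => (hKΩ h).2 hxσ
  have hle : volume.restrict K ≤ (volume : Measure E).restrict Ω :=
    Measure.restrict_mono (fun y hy => (hKΩ hy).1) le_rfl
  obtain ⟨C, hC⟩ := bdd_aux (fun n => (hs.h1 n).memLp.mono_measure hle)
    (memLp_shift hS.continuousOn hK hxK) (hs.conv K hK hKΩ).1
  have h2 : ∀ i, ∃ C : ℝ, ∀ n, sq K (g n i) ≤ C := fun i =>
    bdd_aux (fun n => ((hs.h1 n).memLp_grad i).mono_measure hle)
      (memLp_shift (hS.continuousOn_pd i) hK hxK) ((hs.conv K hK hKΩ).2 i)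
  choose C' hC' using h2
  refine ⟨C + ∑ i, |C' i|, fun n => ⟨?_, fun i => ?_⟩⟩
  · have : 0 ≤ ∑ i, |C' i| := Finset.sum_nonneg (fun i _ => abs_nonneg _)
    linarith [hC n]
  · have h3 : |C' i| ≤ ∑ i, |C' i| :=
      Finset.single_le_sum (f := fun i => |C' i|) (fun i _ => abs_nonneg _) (Finset.mem_univ i)
    have h4 := hC' i n
    have h5 := le_abs_self (C' i)
    have h6 : 0 ≤ C := (sq_nonneg' _ _).trans (hC n)
    linarith

end Pool.Agent.helper27.Probe
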