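import Pool.Agent.helper53.Probe.M13

/-! Module M13 (cutoff function around the end of a needle) is in `helper53/Probe/M13`. -/
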