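import Pool.Agent.helper27.Probe.Cone
import Pool.Agent.helper53.Probe.M11b
import Pool.Agent.helper61.Probe.M3
import Pool.Agent.helper14.Probe.M1
import Pool.Agent.helper14.Probe.M14a
import Pool.Agent.helper27.Probe.Cut

/-! M15: blow-up of the needle sequence in `H¹(D)`. -/

open MeasureTheory Metric Set Filter Topology
open scoped ContDiff ENNReal

namespace Pool.Agent.helper27.Probe

theorem sq_eq_univ {U : Set E} {f : E → ℂ} (hf : ∀ y ∉ U, f y = 0) : sq U f = sq univ f := by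
  unfold sq
  rw [setIntegral_univ]
  exact setIntegral_eq_integral_of_forall_compl_eq_zero
    (f := fun y => ‖f y‖ ^ 2) (fun y hy => by rw [hf y hy]; simp)

theorem cutoff_bound {k : ℝ} {Ω : Set E} (hΩ : IsOpen Ω) {v : E → ℂ} {g : Fin 3 → E → ℂ}
    (hv : H1 Ω v g) (hh : WeakHelmholtz k Ω Ω v g) {χ : E → ℝ} (hχ : ContDiff ℝ ∞ χ)
    (hc : HasCompactSupport χ) (hs : tsupport χ ⊆ Ω) {a : E} (ha : ∀ y, χ y ≠ 0 → χ (y + a) = 0)
    (hka : k ^ 2 * ‖a‖ ^ 2 ≤ 1 / 2) :
    (∑ i, ∫ y in Ω, ‖(χ y : ℂ) * g i y + ((fderiv ℝ χ y (e i) : ℝ) : ℂ) * v y‖ ^ 2) ≤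
      2 * ∑ i, ∫ y in Ω, ‖((fderiv ℝ χ y (e i) : ℝ) : ℂ) * v y‖ ^ 2 := by
  have h1 := energy_identity hΩ hv hh hχ hc hs
  have h2 := H1_cutoff hΩ hv hχ hc hs
  have hT : MeasurableSet {y | χ y ≠ 0} := (isOpen_ne_fun hχ.continuous continuous_const).measurableSet
  have h3 := thin_poincare_of (f := fun y => (χ y : ℂ) * v y) hT (fun y hy => by
    have : χ y = 0 := by simpa using hy
    simp [this]) (a := a) (fun y hy => by
    have := ha y hy
    simpa using this) (trans_ineq isOpen_univ h2 hT a (fun y _ t _ => mem_univ _)).2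
  have hχ0 : ∀ y ∉ Ω, χ y = 0 := fun y hy => image_eq_zero_of_notMem_tsupport (fun h => hy (hs h))
  have hχ1 : ∀ y ∉ Ω, fderiv ℝ χ y = 0 := fun y hy => by
    by_contra h
    exact hy (hs (support_fderiv_subset ℝ (f := χ) h))
  rw [← sq_eq_univ (U := Ω) (fun y hy => by simp [hχ0 y hy])] at h3
  have h4 : ∀ i, sq univ (fun y => (χ y : ℂ) * g i y + ((fderiv ℝ χ y (e i) : ℝ) : ℂ) * v y) =
      ∫ y in Ω, ‖(χ y : ℂ) * g i y + ((fderiv ℝ χ y (e i) : ℝ) : ℂ) * v y‖ ^ 2 := by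
    intro i
    rw [← sq_eq_univ (U := Ω) (fun y hy => by simp [hχ0 y hy, hχ1 y hy])]
    rfl
  simp only [h4] at h3
  have h5 : 0 ≤ ∑ i, ∫ y in Ω, ‖(χ y : ℂ) * g i y + ((fderiv ℝ χ y (e i) : ℝ) : ℂ) * v y‖ ^ 2 :=
    Finset.sum_nonneg (fun i _ => integral_nonneg (fun _ => by positivity))
  have h6 : sq Ω (fun y => (χ y : ℂ) * v y) = ∫ y in Ω, ‖(χ y : ℂ) * v y‖ ^ 2 := rfl
  rw [h6] at h3
  have h7 := mul_le_mul_of_nonneg_left h3 (sq_nonneg k)
  have h8 := mul_le_mul_of_nonneg_right hka h5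
  nlinarith

theorem blowup {k : ℝ} {Ω D : Set E} {G : E → ℂ} {x : E} {σ : ℝ → E} {v : ℕ → E → ℂ}
    {g : ℕ → Fin 3 → E → ℂ} (hG : Geometry Ω D) (hk : 0 < k) (hS : Singular k G) (hx : x ∈ Ω)
    (hσ : Needle Ω x σ) (hs : NeedleSeq k Ω G x σ v g)
    (hc : x ∈ closure D ∨ x ∉ closure D ∧ (σ '' Icc 0 1 ∩ D).Nonempty) :
    Tendsto (fun n => en D (v n) (g n)) atTop atTop := by
  have hDΩ : D ⊆ Ω := subset_closure.trans hG.sub
  have hvD : ∀ n, H1 D (v n) (g n) := fun n => H1.mono hG.openΩ hG.openD (hs.h1 n) hDΩ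
  have hxσ : x ∈ σ '' Icc 0 1 := ⟨1, by simp, hσ.finish⟩
  rcases hc with hc | ⟨hc1, hc2⟩
  · obtain ⟨d, ρ, α, hd, hρ, hα, hα1, hcone⟩ := cone_in (A := D) hG.openD hσ (by
      by_cases h : x ∈ D
      · exact Or.inl h
      · refine Or.inr ⟨?_, shift_D hG⟩
        rw [hG.openD.frontier_eq]
        exact ⟨hc, h⟩)
    have h1 := cone_blow hS hG.openΩ hG.openD hDΩ hs hd hρ hα hα1 hcone
    exact tendsto_atTop_mono (fun n => le_add_of_nonneg_left (sq_nonneg' _ _)) h1
  · obtain ⟨χ, a, K₁, K₂, r, hχ, hχc, hχs, hχ01, ha, hthin, hr, hrΩ, hχ1, hK₁, hK₁', hK₂, hK₂',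
      hχK⟩ := exists_cutoff hG.openΩ hG.openD hDΩ hx hσ hc1 hc2 (η := (2 * k)⁻¹) (by positivity)
    have hka : k ^ 2 * ‖a‖ ^ 2 ≤ 1 / 2 := by
      have h1 : ‖a‖ ^ 2 ≤ ((2 * k)⁻¹) ^ 2 := pow_le_pow_left₀ (norm_nonneg _) ha 2
      have h2 : k ^ 2 * ((2 * k)⁻¹) ^ 2 = 1 / 4 := by
        field_simp
        norm_num
      have h3 := mul_le_mul_of_nonneg_left h1 (sq_nonneg k)
      linarith
    obtain ⟨d, ρ, α, hd, hρ, hα, hα1, hcone⟩ := cone_in (A := ball x r) isOpen_ball hσ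
      (Or.inl (mem_ball_self hr))
    have hcb := cone_blow hS hG.openΩ isOpen_ball hrΩ hs hd hρ hα hα1 hcone
    obtain ⟨C₁, hC₁⟩ := bdd_compact hxσ hS hs hK₁ hK₁'
    -- bound for the gradient of the cutoff
    have hχd : Continuous (fderiv ℝ χ) := hχ.continuous_fderiv (by simp)
    obtain ⟨L, hL⟩ := (hχc.fderiv (𝕜 := ℝ)).exists_bound_of_continuous hχd
    have hL0 : 0 ≤ L := (norm_nonneg _).trans (hL 0)
    have he : ∀ i : Fin 3, ‖e i‖ = 1 := fun i => by simp [e]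
    -- key inequality
    have key : ∀ n, ∑ i, sq (ball x r) (g n i) ≤ 6 * L ^ 2 * (C₁ + en D (v n) (g n)) := by
      intro n
      have h1 := cutoff_bound hG.openΩ (hs.h1 n) (hs.helm n) hχ hχc hχs hthin hka
      have h2 : ∀ i, sq (ball x r) (g n i) ≤
          ∫ y in Ω, ‖(χ y : ℂ) * g n i y + ((fderiv ℝ χ y (e i) : ℝ) : ℂ) * v n y‖ ^ 2 := by
        intro i
        have h3 : sq (ball x r) (g n i) = sq (ball x r)
            (fun y => (χ y : ℂ) * g n i y + ((fderiv ℝ χ y (e i) : ℝ) : ℂ) * v n y) := by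
          unfold sq
          refine setIntegral_congr_fun measurableSet_ball (fun y hy => ?_)
          have h4 : fderiv ℝ χ y = 0 := by
            have h5 : χ =ᶠ[𝓝 y] fun _ => (1 : ℝ) := by
              filter_upwards [isOpen_ball.mem_nhds hy] with z hz using hχ1 z hz
            rw [h5.fderiv_eq]
            simp
          simp [h4, hχ1 y hy]
        rw [h3]
        exact sq_le_of_subset (((H1_cutoff hG.openΩ (hs.h1 n) hχ hχc hχs).memLp_grad i).mono_measure
          (by rw [Measure.restrict_univ]; exact Measure.restrict_le_self)) hrΩ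
      have h3 : ∀ i : Fin 3, ∫ y in Ω, ‖((fderiv ℝ χ y (e i) : ℝ) : ℂ) * v n y‖ ^ 2 ≤
          L ^ 2 * (C₁ + en D (v n) (g n)) := by
        intro i
        have hKΩ : K₁ ∪ K₂ ⊆ Ω := union_subset (fun y hy => (hK₁' hy).1) (hK₂'.trans hDΩ)
        have hKint : IntegrableOn (fun y => ‖v n y‖ ^ 2) Ω := (hs.h1 n).memLp.norm.integrable_sq
        have h4 : ∫ y in Ω, ‖((fderiv ℝ χ y (e i) : ℝ) : ℂ) * v n y‖ ^ 2 =
            ∫ y in K₁ ∪ K₂, ‖((fderiv ℝ χ y (e i) : ℝ) : ℂ) * v n y‖ ^ 2 := by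
          have h5 : ∀ y ∉ K₁ ∪ K₂, ‖((fderiv ℝ χ y (e i) : ℝ) : ℂ) * v n y‖ ^ 2 = 0 := by
            intro y hy
            have : fderiv ℝ χ y = 0 := by
              by_contra h
              exact hy (hχK y h)
            simp [this]
          rw [setIntegral_eq_integral_of_forall_compl_eq_zero h5,
            setIntegral_eq_integral_of_forall_compl_eq_zero (fun y hy => h5 y (fun h => hy (hKΩ h)))]
        rw [h4]
        have h5 : ∫ y in K₁ ∪ K₂, ‖((fderiv ℝ χ y (e i) : ℝ) : ℂ) * v n y‖ ^ 2 ≤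
            ∫ y in K₁ ∪ K₂, L ^ 2 * ‖v n y‖ ^ 2 := by
          refine integral_mono_of_nonneg (Eventually.of_forall (fun _ => by positivity))
            ((hKint.mono_set hKΩ).const_mul _) (Eventually.of_forall (fun y => ?_))
          simp only
          rw [norm_mul, mul_pow]
          refine mul_le_mul_of_nonneg_right ?_ (by positivity)
          refine pow_le_pow_left₀ (norm_nonneg _) ?_ 2
          rw [Complex.norm_real]
          have := (fderiv ℝ χ y).le_opNorm (e i)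
          rw [he i, mul_one] at this
          exact this.trans (hL y)
        refine h5.trans ?_
        rw [integral_const_mul]
        refine mul_le_mul_of_nonneg_left ?_ (by positivity)
        have h6 : ∫ y in K₁ ∪ K₂, ‖v n y‖ ^ 2 ≤ sq K₁ (v n) + sq K₂ (v n) := by
          unfold sq
          have h7 : K₁ ∪ K₂ = K₁ ∪ (K₂ \ K₁) := by simp
          rw [h7, setIntegral_union disjoint_sdiff_right (hK₂.measurableSet.diff hK₁.measurableSet)
            (hKint.mono_set (fun y hy => (hK₁' hy).1))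
            (hKint.mono_set (fun y hy => hDΩ (hK₂' hy.1)))]
          refine add_le_add le_rfl ?_
          exact setIntegral_mono_set (hKint.mono_set (hK₂'.trans hDΩ))
            (Eventually.of_forall (fun _ => by positivity))
            (LE.le.eventuallyLE sdiff_subset)
        refine h6.trans (add_le_add (hC₁ n).1 ?_)
        refine (sq_le_of_subset (hvD n).memLp hK₂').trans ?_
        exact le_add_of_nonneg_right (Finset.sum_nonneg (fun _ _ => sq_nonneg' _ _))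
      calc ∑ i, sq (ball x r) (g n i)
          ≤ ∑ i, ∫ y in Ω, ‖(χ y : ℂ) * g n i y + ((fderiv ℝ χ y (e i) : ℝ) : ℂ) * v n y‖ ^ 2 :=
            Finset.sum_le_sum (fun i _ => h2 i)
        _ ≤ 2 * ∑ i, ∫ y in Ω, ‖((fderiv ℝ χ y (e i) : ℝ) : ℂ) * v n y‖ ^ 2 := h1
        _ ≤ 2 * ∑ _i : Fin 3, L ^ 2 * (C₁ + en D (v n) (g n)) :=
            mul_le_mul_of_nonneg_left (Finset.sum_le_sum (fun i _ => h3 i)) (by norm_num)
        _ = 6 * L ^ 2 * (C₁ + en D (v n) (g n)) := by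
            simp
            ring
    -- conclusion
    have hC₁0 : 0 ≤ C₁ := (sq_nonneg' _ _).trans (hC₁ 0).1
    have h6 : ∀ n, ∑ i, sq (ball x r) (g n i) ≤
        (6 * L ^ 2 + 1) * (C₁ + en D (v n) (g n)) := fun n => (key n).trans (by
      refine mul_le_mul_of_nonneg_right (by linarith) ?_
      exact add_nonneg hC₁0 (en_nonneg _ _ _))
    have h7 : Tendsto (fun n => (6 * L ^ 2 + 1) * (C₁ + en D (v n) (g n))) atTop atTop :=
      tendsto_atTop_mono h6 hcb
    have h8 : Tendsto (fun n => C₁ + en D (v n) (g n)) atTop atTop :=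
      (tendsto_const_mul_atTop_of_pos (by positivity)).1 h7
    have h9 := tendsto_atTop_add_const_left atTop (-C₁) h8
    refine h9.congr (fun n => ?_)
    ring

end Pool.Agent.helper27.Probe
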