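import Pool.Agent.helper27.Probe.Bdd

/-! M14b: blow-up of needle sequences on cones. -/

open MeasureTheory Metric Set Filter Topology
open scoped ContDiff ENNReal

namespace Pool.Agent.helper27.Probe

theorem sq_le_of_subset {A B : Set E} {f : E → ℂ} (hf : MemLp f 2 (volume.restrict B))
    (hA : A ⊆ B) : sq A f ≤ sq B f := by
  unfold sq
  refine setIntegral_mono_set ?_ (Eventually.of_forall (fun _ => by positivity))
    (LE.le.eventuallyLE hA)
  exact hf.norm.integrable_sq

theorem notMem_cone {x d : E} {ρ α : ℝ} (hd : ‖d‖ = 1) (hα : 0 < α) (hα1 : α < 1) :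
    x ∉ cone x d ρ α := by
  rintro ⟨-, h⟩
  have hcos : 0 < Real.cos (Real.pi * α / 2) := by
    apply Real.cos_pos_of_mem_Ioo
    constructor
    · have := Real.pi_pos
      have h1 : 0 < Real.pi * α / 2 := by positivity
      linarith
    · have := Real.pi_pos
      nlinarith
  rw [mem_interior_iff_mem_nhds, Metric.mem_nhds_iff] at h
  obtain ⟨ε, hε, hb⟩ := h
  have h1 : x - (ε / 2) • d ∈ ball x ε := by
    rw [mem_ball, dist_eq_norm]
    simp only [sub_sub_cancel_left, norm_neg, norm_smul, hd, mul_one]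
    rw [Real.norm_eq_abs, abs_of_pos (by positivity)]
    linarith
  have h2 := hb h1
  simp only [mem_ofPred_eq, sub_sub_cancel_left, norm_neg, norm_smul, hd, mul_one, inner_neg_left,
    inner_smul_left, real_inner_self_eq_norm_sq] at h2
  rw [Real.norm_eq_abs, abs_of_pos (by positivity)] at h2
  have h3 : 0 < ε / 2 * Real.cos (Real.pi * α / 2) := by positivity
  have h4 : (starRingEnd ℝ) (ε / 2) * 1 ^ 2 = ε / 2 := by simp
  rw [h4] at h2
  linarith

theorem tendsto_eLpNorm_of_sub {μ : Measure E} {f : ℕ → E → ℂ} {F : E → ℂ}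
    (hf : ∀ n, MemLp (f n) 2 μ) (hF : MemLp F 2 μ)
    (h : Tendsto (fun n => eLpNorm (fun y => f n y - F y) 2 μ) atTop (𝓝 0)) :
    Tendsto (fun n => (eLpNorm (f n) 2 μ).toReal) atTop (𝓝 (eLpNorm F 2 μ).toReal) := by
  have h1 : Tendsto (fun n => (eLpNorm (fun y => f n y - F y) 2 μ).toReal)
      atTop (𝓝 0) := by
    have := (ENNReal.tendsto_toReal ENNReal.zero_ne_top).comp h
    rw [ENNReal.toReal_zero] at this
    exact this
  have hub : ∀ n, (eLpNorm (f n) 2 μ).toReal ≤
      (eLpNorm F 2 μ).toReal + (eLpNorm (fun y => f n y - F y) 2 μ).toReal := by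
    intro n
    have h3 := eLpNorm_add_le (μ := μ) (p := 2) hF.aestronglyMeasurable
      ((hf n).sub hF).aestronglyMeasurable (by norm_num)
    have h4 : F + (f n - F) = f n := by simp
    rw [h4] at h3
    have h5 := ENNReal.toReal_mono (ENNReal.add_ne_top.2 ⟨hF.eLpNorm_ne_top,
      ((hf n).sub hF).eLpNorm_ne_top⟩) h3
    rw [ENNReal.toReal_add hF.eLpNorm_ne_top ((hf n).sub hF).eLpNorm_ne_top] at h5
    exact h5
  have hlb : ∀ n, (eLpNorm F 2 μ).toReal - (eLpNorm (fun y => f n y - F y) 2 μ).toReal ≤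
      (eLpNorm (f n) 2 μ).toReal := by
    intro n
    have h3 := eLpNorm_sub_le (μ := μ) (p := 2) (hf n).aestronglyMeasurable
      ((hf n).sub hF).aestronglyMeasurable (by norm_num)
    have h4 : f n - (f n - F) = F := by simp
    rw [h4] at h3
    have h5 := ENNReal.toReal_mono (ENNReal.add_ne_top.2 ⟨(hf n).eLpNorm_ne_top,
      ((hf n).sub hF).eLpNorm_ne_top⟩) h3
    rw [ENNReal.toReal_add (hf n).eLpNorm_ne_top ((hf n).sub hF).eLpNorm_ne_top] at h5
    have h6 : (eLpNorm (fun y => f n y - F y) 2 μ).toReal = (eLpNorm (f n - F) 2 μ).toReal := rfl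
    rw [h6]
    linarith
  refine tendsto_of_tendsto_of_tendsto_of_le_of_le ?_ ?_ hlb hub
  · simpa using tendsto_const_nhds.sub h1
  · simpa using tendsto_const_nhds.add h1

theorem cone_shift (x d : E) (ρ α : ℝ) :
    (fun y => y - x) ⁻¹' cone 0 d ρ α = cone x d ρ α := by
  unfold cone
  rw [preimage_inter]
  congr 1
  · ext y
    simp [dist_eq_norm]
  · have h1 := (Homeomorph.subRight x).preimage_interior
      {y | ‖y - 0‖ * Real.cos (Real.pi * α / 2) ≤ inner ℝ (y - 0) d}
    have h2 : (⇑(Homeomorph.subRight x) : E → E) = fun y => y - x := rfl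
    rw [h2] at h1
    rw [h1]
    simp

theorem lintegral_cone {k : ℝ} {G : E → ℂ} (hG : Singular k G) {x d : E} {ρ α : ℝ}
    (hd : ‖d‖ = 1) (hρ : 0 < ρ) (hα : 0 < α) (hα1 : α < 1) :
    ∫⁻ y in cone x d ρ α, ∑ i, ‖pd i G (y - x)‖ₑ ^ 2 = ⊤ := by
  rw [← hG.blow d ρ α hd hρ hα hα1, ← cone_shift x d ρ α]
  have hmp := (measurePreserving_sub_right (volume : Measure E) x)
  have hme : MeasurableEmbedding (fun y : E => y - x) :=
    (Homeomorph.subRight x).measurableEmbedding
  exact hmp.setLIntegral_comp_preimage_emb hme (fun y => ∑ i, ‖pd i G y‖ₑ ^ 2) _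

theorem isOpen_cone (x d : E) (ρ α : ℝ) : IsOpen (cone x d ρ α) :=
  isOpen_ball.inter isOpen_interior

theorem lintegral_sq {K : Set E} {F : E → ℂ} (hF : MemLp F 2 (volume.restrict K)) :
    ∫⁻ y in K, ‖F y‖ₑ ^ 2 = ENNReal.ofReal (sq K F) := by
  unfold sq
  rw [ofReal_integral_eq_lintegral_ofReal hF.norm.integrable_sq
    (Eventually.of_forall (fun _ => by positivity))]
  congr 1
  ext y
  rw [ENNReal.ofReal_pow (norm_nonneg _), ofReal_norm]

theorem cone_blow {k : ℝ} {Ω A : Set E} {G : E → ℂ} {x : E} {σ : ℝ → E} {v : ℕ → E → ℂ}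
    {g : ℕ → Fin 3 → E → ℂ} (hG : Singular k G) (_hΩ : IsOpen Ω) (_hA : IsOpen A) (hAΩ : A ⊆ Ω)
    (hs : NeedleSeq k Ω G x σ v g) {d : E} {ρ α : ℝ} (hd : ‖d‖ = 1) (hρ : 0 < ρ) (hα : 0 < α)
    (hα1 : α < 1) (hc : cone x d ρ α ⊆ A \ σ '' Icc 0 1) :
    Tendsto (fun n => ∑ i, sq A (g n i)) atTop atTop := by
  rw [Filter.tendsto_atTop]
  intro M
  obtain ⟨F, hFc, hFs, hFU, hFm⟩ := (isOpen_cone x d ρ α).exists_iUnion_isClosed
  have h1 := lintegral_cone hG (x := x) hd hρ hα hα1
  have hmeas : Measurable (fun y : E => ∑ i, ‖pd i G (y - x)‖ₑ ^ 2) := by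
    refine Finset.measurable_sum _ (fun i _ => ?_)
    have : Measurable (pd i G) := measurable_fderiv_apply_const ℝ G (e i)
    exact ((this.comp (measurable_id.sub_const x)).enorm).pow_const 2
  set ν : Measure E := volume.withDensity (fun y : E => ∑ i, ‖pd i G (y - x)‖ₑ ^ 2) with hν
  have h2 : Tendsto (fun n => ν (F n)) atTop (𝓝 (ν (⋃ n, F n))) := tendsto_measure_iUnion_atTop hFm
  rw [hFU, hν, withDensity_apply _ (isOpen_cone x d ρ α).measurableSet, h1] at h2
  have h3 : ∀ᶠ n in atTop, ENNReal.ofReal (M + 1) < ν (F n) :=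
    h2.eventually (lt_mem_nhds ENNReal.ofReal_lt_top)
  obtain ⟨m, hm⟩ := h3.exists
  set K := F m with hKdef
  have hKc : IsCompact K := Metric.isCompact_of_isClosed_isBounded (hFc m)
    (isBounded_ball.subset ((hFs m).trans (inter_subset_left (s := ball x ρ))))
  have hKA : K ⊆ A := fun y hy => (hc (hFs m hy)).1
  have hKΩ : K ⊆ Ω \ σ '' Icc 0 1 := fun y hy => ⟨hAΩ (hKA hy), (hc (hFs m hy)).2⟩
  have hxK : x ∉ K := fun h => notMem_cone hd hα hα1 (hFs m h)
  have hGL : ∀ i, MemLp (fun y => pd i G (y - x)) 2 (volume.restrict K) := fun i =>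
    memLp_shift (hG.continuousOn_pd i) hKc hxK
  have hle : volume.restrict K ≤ (volume : Measure E).restrict Ω :=
    Measure.restrict_mono (fun y hy => (hKΩ hy).1) le_rfl
  have hleA : volume.restrict A ≤ (volume : Measure E).restrict Ω :=
    Measure.restrict_mono hAΩ le_rfl
  have hgL : ∀ n i, MemLp (g n i) 2 (volume.restrict K) := fun n i =>
    ((hs.h1 n).memLp_grad i).mono_measure hle
  have hlim : Tendsto (fun n => ∑ i, sq K (g n i)) atTop
      (𝓝 (∑ i, sq K (fun y => pd i G (y - x)))) := by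
    refine tendsto_finsetSum _ (fun i _ => ?_)
    rw [sq_eq (hGL i).aestronglyMeasurable]
    have := (tendsto_eLpNorm_of_sub (fun n => hgL n i) (hGL i) ((hs.conv K hKc hKΩ).2 i)).pow 2
    refine this.congr (fun n => ?_)
    rw [sq_eq (hgL n i).aestronglyMeasurable]
  have hbig : M + 1 ≤ ∑ i, sq K (fun y => pd i G (y - x)) := by
    rw [hν, withDensity_apply _ (hFc m).measurableSet, lintegral_finsetSum'] at hm
    · have h5 : ∀ i, ∫⁻ y in K, ‖pd i G (y - x)‖ₑ ^ 2 =
          ENNReal.ofReal (sq K (fun y => pd i G (y - x))) := fun i => lintegral_sq (hGL i)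
      rw [Finset.sum_congr rfl (fun i _ => h5 i)] at hm
      rw [← ENNReal.ofReal_sum_of_nonneg (fun i _ => sq_nonneg' _ _)] at hm
      have h0 : 0 ≤ ∑ i, sq K (fun y => pd i G (y - x)) :=
        Finset.sum_nonneg (fun i _ => sq_nonneg' _ _)
      by_contra hlt
      push Not at hlt
      exact absurd (ENNReal.ofReal_le_ofReal hlt.le) (not_le.2 hm)
    · intro i _
      exact ((hGL i).aestronglyMeasurable.enorm.pow_const 2)
  filter_upwards [hlim.eventually (lt_mem_nhds (show M < ∑ i, sq K (fun y => pd i G (y - x)) by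
    linarith))] with n hn
  refine hn.le.trans (Finset.sum_le_sum (fun i _ => sq_le_of_subset ?_ hKA))
  exact ((hs.h1 n).memLp_grad i).mono_measure hleA

end Pool.Agent.helper27.Probe
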