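import Mathlib

/-! Definitions for the probe method (inverse obstacle scattering, Helmholtz equation in `ℝ³`):
Sobolev space `H¹` by weak gradients, mixed boundary value problem, needles, needle sequences,
indicator sequence. -/

open MeasureTheory Metric Set Filter Topology
open scoped ContDiff ENNReal

namespace Pool.Agent.helper27.Probe

/-- three-dimensional Euclidean space -/
abbrev E := EuclideanSpace ℝ (Fin 3)

/-- the `i`-th coordinate unit vector -/
noncomputable def e (i : Fin 3) : E := EuclideanSpace.single i 1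

/-- the `i`-th partial derivative -/
noncomputable def pd (i : Fin 3) (φ : E → ℂ) (y : E) : ℂ := fderiv ℝ φ y (e i)

/-- test functions on `U`: smooth functions with compact support contained in `U` -/
structure Test (U : Set E) (φ : E → ℂ) : Prop where
  smooth : ContDiff ℝ ∞ φ
  comp : HasCompactSupport φ
  supp : tsupport φ ⊆ U

/-- `v ∈ H¹(U)` with weak gradient `g`: `v` and all `g i` are square integrable on `U` and
`∫_U v ∂_iφ = - ∫_U g_i φ` for all test functions `φ` on `U` -/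
structure H1 (U : Set E) (v : E → ℂ) (g : Fin 3 → E → ℂ) : Prop where
  memLp : MemLp v 2 (volume.restrict U)
  memLp_grad : ∀ i, MemLp (g i) 2 (volume.restrict U)
  weak : ∀ φ, Test U φ → ∀ i, ∫ y in U, v y * pd i φ y = - ∫ y in U, g i y * φ y

/-- `Δv + k²v = 0` in weak form on `U`, tested with all test functions on `W`:
`∫_U ∇v·∇φ = k² ∫_U v φ`. For `W = U` this is the Helmholtz equation in `U`; for
`U = Ω \ closure D`, `W = Ω` it is the Helmholtz equation in `Ω \ closure D` together with the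
Neumann condition `∂_ν v = 0` on `∂D`. -/
def WeakHelmholtz (k : ℝ) (U W : Set E) (v : E → ℂ) (g : Fin 3 → E → ℂ) : Prop :=
  ∀ φ, Test W φ → ∫ y in U, ∑ i, g i y * pd i φ y = (k : ℂ) ^ 2 * ∫ y in U, v y * φ y

/-- `w ∈ H¹(Ω \ closure D)` (weak gradient `h`) vanishes on `∂Ω`: it is a limit in
`H¹(Ω \ closure D)` of restrictions of test functions on `Ω` -/
def ZeroOuter (Ω D : Set E) (w : E → ℂ) (h : Fin 3 → E → ℂ) : Prop :=
  H1 (Ω \ closure D) w h ∧ ∀ ε : ℝ≥0∞, 0 < ε → ∃ φ, Test Ω φ ∧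
    eLpNorm (fun y => w y - φ y) 2 (volume.restrict (Ω \ closure D)) ≤ ε ∧
    ∀ i, eLpNorm (fun y => h i y - pd i φ y) 2 (volume.restrict (Ω \ closure D)) ≤ ε

/-- the set `U` has smooth boundary: near every boundary point it is the set where some smooth
function with nonzero differential is negative -/
def SmoothBdry (U : Set E) : Prop :=
  ∀ p ∈ frontier U, ∃ (W : Set E) (ψ : E → ℝ), IsOpen W ∧ p ∈ W ∧ ContDiffOn ℝ ∞ ψ W ∧
    fderiv ℝ ψ p ≠ 0 ∧ ∀ y ∈ W, y ∈ U ↔ ψ y < 0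

/-- the geometric hypotheses on `Ω` and the obstacle `D` -/
structure Geometry (Ω D : Set E) : Prop where
  openΩ : IsOpen Ω
  connΩ : IsConnected Ω
  bddΩ : Bornology.IsBounded Ω
  smoothΩ : SmoothBdry Ω
  openD : IsOpen D
  smoothD : SmoothBdry D
  sub : closure D ⊆ Ω
  conn : IsConnected (Ω \ closure D)

/-- `k²` is not an eigenvalue of `-Δ` in `Ω \ closure D` with Dirichlet condition on `∂Ω` and
Neumann condition on `∂D` -/
def NotEigen (k : ℝ) (Ω D : Set E) : Prop :=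
  ∀ w h, ZeroOuter Ω D w h → WeakHelmholtz k (Ω \ closure D) Ω w h →
    w =ᵐ[volume.restrict (Ω \ closure D)] 0

/-- `u ∈ H¹(Ω \ closure D)` is the weak solution of `Δu + k²u = 0` in `Ω \ closure D`,
`∂_ν u = 0` on `∂D`, `u = v` on `∂Ω` -/
structure MixedSol (k : ℝ) (Ω D : Set E) (v : E → ℂ) (g : Fin 3 → E → ℂ) (u : E → ℂ)
    (h : Fin 3 → E → ℂ) : Prop where
  h1 : H1 (Ω \ closure D) u h
  helm : WeakHelmholtz k (Ω \ closure D) Ω u h
  bdry : ZeroOuter Ω D (fun y => u y - v y) (fun i y => h i y - g i y)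

/-- the sesquilinear form `∫_U (∇u·conj ∇v - k² u conj v)` -/
noncomputable def form (k : ℝ) (U : Set E) (u : E → ℂ) (h : Fin 3 → E → ℂ) (v : E → ℂ)
    (g : Fin 3 → E → ℂ) : ℂ :=
  ∫ y in U, ((∑ i, h i y * (starRingEnd ℂ) (g i y)) - (k : ℂ) ^ 2 * (u y * (starRingEnd ℂ) (v y)))

/-- the duality pairing `⟨∂_ν v - Λ_D(v|_{∂Ω}), conj v⟩` on `∂Ω`: by definition of the weak normal
derivative (Green's formula) `⟨∂_ν v, conj ψ⟩ = form k Ω v ψ` and, for the solution `u` of the mixed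
problem with `u = v` on `∂Ω`, `⟨Λ_D(v|_{∂Ω}), conj ψ⟩ = form k (Ω \ closure D) u ψ` -/
noncomputable def indicator (k : ℝ) (Ω D : Set E) (v : E → ℂ) (g : Fin 3 → E → ℂ) (u : E → ℂ)
    (h : Fin 3 → E → ℂ) : ℂ :=
  form k Ω v g v g - form k (Ω \ closure D) u h v g

/-- `σ` is a needle from `∂Ω` to `x`: an injective piecewise linear curve with `σ(0) ∈ ∂Ω`,
`σ(t) ∈ Ω` for `0 < t < 1`, `σ(1) = x` -/
structure Needle (Ω : Set E) (x : E) (σ : ℝ → E) : Prop where
  cont : ContinuousOn σ (Icc 0 1)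
  inj : InjOn σ (Icc 0 1)
  pl : ∃ (m : ℕ) (t : ℕ → ℝ), t 0 = 0 ∧ t m = 1 ∧ (∀ i < m, t i < t (i + 1)) ∧
    ∀ i < m, ∃ a b : E, ∀ s ∈ Icc (t i) (t (i + 1)), σ s = a + s • b
  start : σ 0 ∈ frontier Ω
  inside : ∀ s ∈ Ioo (0 : ℝ) 1, σ s ∈ Ω
  finish : σ 1 = x

/-- the finite cone with vertex `z`, axis direction `d`, radius `ρ` and opening parameter `α` -/
def cone (z d : E) (ρ α : ℝ) : Set E :=
  ball z ρ ∩ interior {y | ‖y - z‖ * Real.cos (Real.pi * α / 2) ≤ inner ℝ (y - z) d}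

/-- `G` is a solution of `ΔG + k²G = 0` in `ℝ³ \ {0}` whose gradient is not square integrable on
any finite cone with vertex `0` -/
structure Singular (k : ℝ) (G : E → ℂ) : Prop where
  smooth : ContDiffOn ℝ 2 G {0}ᶜ
  eqn : ∀ y, y ≠ 0 → ∑ i, pd i (pd i G) y + (k : ℂ) ^ 2 * G y = 0
  blow : ∀ (d : E) (ρ α : ℝ), ‖d‖ = 1 → 0 < ρ → 0 < α → α < 1 →
    ∫⁻ y in cone 0 d ρ α, ∑ i, ‖pd i G y‖ₑ ^ 2 = (⊤ : ℝ≥0∞)

/-- needle sequence for `(x, σ)`: solutions `v n ∈ H¹(Ω)` of the Helmholtz equation in `Ω` with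
`v n → G(· - x)` in `H¹` on every compact subset of `Ω \ σ` -/
structure NeedleSeq (k : ℝ) (Ω : Set E) (G : E → ℂ) (x : E) (σ : ℝ → E) (v : ℕ → E → ℂ)
    (g : ℕ → Fin 3 → E → ℂ) : Prop where
  h1 : ∀ n, H1 Ω (v n) (g n)
  helm : ∀ n, WeakHelmholtz k Ω Ω (v n) (g n)
  conv : ∀ K, IsCompact K → K ⊆ Ω \ σ '' Icc 0 1 →
    Tendsto (fun n => eLpNorm (fun y => v n y - G (y - x)) 2 (volume.restrict K)) atTop (𝓝 0) ∧
    ∀ i, Tendsto (fun n => eLpNorm (fun y => g n i y - pd i G (y - x)) 2 (volume.restrict K))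
      atTop (𝓝 0)

/-! auxiliary notions for the proof -/

/-- squared `L²(U)` norm -/
noncomputable def sq (U : Set E) (f : E → ℂ) : ℝ := ∫ y in U, ‖f y‖ ^ 2

/-- squared `H¹(U)` norm -/
noncomputable def en (U : Set E) (v : E → ℂ) (g : Fin 3 → E → ℂ) : ℝ := sq U v + ∑ i, sq U (g i)

/-- uniform inner shift (cone) property at the boundary -/
def InnerShift (U : Set E) : Prop :=
  ∀ p ∈ frontier U, ∃ r > 0, ∃ a : E, ∃ c > 0, ∃ δ > 0, ‖a‖ = 1 ∧
    ∀ y ∈ ball p r ∩ U, ∀ s ∈ Ioo (0 : ℝ) δ, ball (y + s • a) (c * s) ⊆ U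

end Pool.Agent.helper27.Probe
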