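import Pool.Agent.helper61.Probe.M3
import Pool.Agent.helper74.Probe.M6
import Pool.Agent.helper88.Probe.M5

/-! Rellich's theorem for domains with the inner shift property. -/

open MeasureTheory Metric Set Filter Topology
open scoped ContDiff ENNReal

namespace Pool.Agent.helper27.Probe

theorem rellich {U : Set E} (hU : IsOpen U) (hb : Bornology.IsBounded U) (h : InnerShift U)
    {v : ℕ → E → ℂ} {g : ℕ → Fin 3 → E → ℂ} (hv : ∀ n, H1 U (v n) (g n)) {C : ℝ}
    (hC : ∀ n, en U (v n) (g n) ≤ C) :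
    ∃ (φ : ℕ → ℕ) (f : E → ℂ), StrictMono φ ∧ MemLp f 2 (volume.restrict U) ∧
      Tendsto (fun n => ∫ y in U, ‖v (φ n) y - f y‖ ^ 2) atTop (𝓝 0) :=
  Pool.Agent.helper74.Probe.rellich'
    (fun hU _ _ hv _ hA a h => trans_ineq hU hv hA a h)
    (fun hU hK hKU _ _ hv _ hC _ hε => Pool.Agent.helper88.Probe.interior_compact
      (fun hU _ _ hv _ hA a h => trans_ineq hU hv hA a h) hU hK hKU hv hC hε)
    hU hb h hv hC

end Pool.Agent.helper27.Probe
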