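import Pool.Agent.helper27.Probe.Cone
import Pool.Agent.helper27.Probe.Rell

/-! M9, M10: sequences which are null away from a closed null set. -/

open MeasureTheory Metric Set Filter Topology
open scoped ContDiff ENNReal

namespace Pool.Agent.helper27.Probe

theorem sq_split {A K : Set E} {f : E → ℂ} (hf : MemLp f 2 (volume.restrict A))
    (hK : MeasurableSet K) (hKA : K ⊆ A) : sq A f = sq K f + sq (A \ K) f := by
  unfold sq
  have h1 : IntegrableOn (fun y => ‖f y‖ ^ 2) A := hf.norm.integrable_sq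
  rw [← integral_inter_add_sdiff hK h1, inter_eq_right.2 hKA]

theorem exists_compact_small {D S : Set E} (hD : IsOpen D) (hS : IsClosed S) (hS0 : volume S = 0)
    {ψ : E → ℂ} (hψ : MemLp ψ 2 (volume.restrict D)) {ε : ℝ} (hε : 0 < ε) :
    ∃ K, IsCompact K ∧ K ⊆ D \ S ∧ sq (D \ K) ψ ≤ ε := by
  obtain ⟨F, hFc, hFs, hFU, hFm⟩ := (hD.sdiff hS).exists_iUnion_isClosed
  set K : ℕ → Set E := fun n => F n ∩ closedBall 0 n with hK
  have hKm : Monotone K := fun m n hmn => inter_subset_inter (hFm hmn)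
    (closedBall_subset_closedBall (by exact_mod_cast hmn))
  have hKU : ⋃ n, K n = D \ S := by
    rw [← hFU]
    apply subset_antisymm
    · exact iUnion_mono (fun n => inter_subset_left)
    · intro y hy
      obtain ⟨m, hm⟩ := mem_iUnion.1 hy
      obtain ⟨n, hn⟩ := exists_nat_ge ‖y‖
      refine mem_iUnion.2 ⟨max m n, hFm (le_max_left _ _) hm, ?_⟩
      rw [mem_closedBall_zero_iff]
      refine hn.trans ?_
      exact_mod_cast le_max_right m n
  have hKc : ∀ n, IsCompact (K n) := fun n =>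
    (isCompact_closedBall (0 : E) n).inter_left (hFc n)
  have hint : IntegrableOn (fun y => ‖ψ y‖ ^ 2) D := hψ.norm.integrable_sq
  have h1 := tendsto_setIntegral_of_monotone (fun n => (hKc n).measurableSet) hKm
    (f := fun y => ‖ψ y‖ ^ 2) (μ := (volume : Measure E))
    (by rw [hKU]; exact hint.mono_set sdiff_subset)
  rw [hKU] at h1
  have h2 : ∫ y in D \ S, ‖ψ y‖ ^ 2 = ∫ y in D, ‖ψ y‖ ^ 2 :=
    setIntegral_congr_set (sdiff_null_ae_eq_self hS0)
  rw [h2] at h1
  obtain ⟨n, hn⟩ := (h1.eventually (lt_mem_nhds (show (∫ y in D, ‖ψ y‖ ^ 2) - ε <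
    ∫ y in D, ‖ψ y‖ ^ 2 by linarith))).exists
  have hsub : K n ⊆ D \ S := by rw [← hKU]; exact subset_iUnion K n
  refine ⟨K n, hKc n, hsub, ?_⟩
  have h3 := sq_split hψ (hKc n).measurableSet (hsub.trans sdiff_subset)
  unfold sq at h3 ⊢
  linarith

theorem norm_setIntegral_mul_le {A : Set E} {f ψ : E → ℂ} (hf : MemLp f 2 (volume.restrict A))
    (hψ : MemLp ψ 2 (volume.restrict A)) :
    ‖∫ y in A, f y * ψ y‖ ≤ √(sq A f) * √(sq A ψ) := by
  have h1 := integral_mul_norm_le_Lp_mul_Lq (μ := volume.restrict A) (f := f) (g := ψ)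
    Real.HolderConjugate.two_two (by simpa using hf) (by simpa using hψ)
  have h2 : ‖∫ y in A, f y * ψ y‖ ≤ ∫ y in A, ‖f y‖ * ‖ψ y‖ := by
    refine (norm_integral_le_integral_norm _).trans_eq ?_
    simp only [norm_mul]
  refine h2.trans (h1.trans_eq ?_)
  unfold sq
  rw [Real.sqrt_eq_rpow, Real.sqrt_eq_rpow]
  simp only [Real.rpow_two]

theorem functional_null {D S : Set E} (hD : IsOpen D) (hS : IsClosed S) (hS0 : volume S = 0)
    {f : ℕ → E → ℂ} (hf : ∀ n, MemLp (f n) 2 (volume.restrict D)) {C : ℝ}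
    (hC : ∀ n, sq D (f n) ≤ C)
    (hK : ∀ K, IsCompact K → K ⊆ D \ S → Tendsto (fun n => sq K (f n)) atTop (𝓝 0))
    {ψ : E → ℂ} (hψ : MemLp ψ 2 (volume.restrict D)) :
    Tendsto (fun n => ∫ y in D, f n y * ψ y) atTop (𝓝 0) := by
  rw [Metric.tendsto_atTop]
  intro ε hε
  have hC0 : 0 ≤ C := (sq_nonneg' _ _).trans (hC 0)
  obtain ⟨K, hKc, hKs, hKε⟩ := exists_compact_small hD hS hS0 hψ
    (ε := (ε / (2 * (√C + 1))) ^ 2) (by positivity)
  have hKD : K ⊆ D := hKs.trans sdiff_subset
  have h1 : Tendsto (fun n => √(sq K (f n)) * √(sq D ψ)) atTop (𝓝 0) := by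
    have := ((Real.continuous_sqrt.tendsto 0).comp (hK K hKc hKs)).mul_const (√(sq D ψ))
    simpa using this
  rw [Metric.tendsto_atTop] at h1
  obtain ⟨N, hN⟩ := h1 (ε / 2) (by positivity)
  refine ⟨N, fun n hn => ?_⟩
  have h2 := hN n hn
  rw [Real.dist_eq, sub_zero, abs_of_nonneg (by positivity)] at h2
  rw [dist_zero_right]
  have hint : IntegrableOn (fun y => f n y * ψ y) D := (hf n).integrable_mul hψ
  rw [← integral_inter_add_sdiff hKc.measurableSet hint, inter_eq_right.2 hKD]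
  refine (norm_add_le _ _).trans_lt ?_
  have hfK : MemLp (f n) 2 (volume.restrict K) := (hf n).mono_measure (Measure.restrict_mono hKD le_rfl)
  have hψK : MemLp ψ 2 (volume.restrict K) := hψ.mono_measure (Measure.restrict_mono hKD le_rfl)
  have hfK' : MemLp (f n) 2 (volume.restrict (D \ K)) :=
    (hf n).mono_measure (Measure.restrict_mono sdiff_subset le_rfl)
  have hψK' : MemLp ψ 2 (volume.restrict (D \ K)) :=
    hψ.mono_measure (Measure.restrict_mono sdiff_subset le_rfl)
  have h3 : ‖∫ y in K, f n y * ψ y‖ ≤ √(sq K (f n)) * √(sq D ψ) :=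
    (norm_setIntegral_mul_le hfK hψK).trans
      (mul_le_mul_of_nonneg_left (Real.sqrt_le_sqrt (sq_le_of_subset hψ hKD)) (Real.sqrt_nonneg _))
  have h4 : ‖∫ y in D \ K, f n y * ψ y‖ ≤ √C * (ε / (2 * (√C + 1))) := by
    refine (norm_setIntegral_mul_le hfK' hψK').trans ?_
    refine mul_le_mul (Real.sqrt_le_sqrt ((sq_le_of_subset (hf n) sdiff_subset).trans (hC n)))
      ?_ (Real.sqrt_nonneg _) (Real.sqrt_nonneg _)
    calc √(sq (D \ K) ψ) ≤ √((ε / (2 * (√C + 1))) ^ 2) := Real.sqrt_le_sqrt hKε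
      _ = ε / (2 * (√C + 1)) := Real.sqrt_sq (by positivity)
  have h5 : √C * (ε / (2 * (√C + 1))) ≤ ε / 2 := by
    have h6 : 0 < √C + 1 := by positivity
    rw [mul_div_assoc', div_le_div_iff₀ (by positivity) (by positivity)]
    nlinarith [Real.sqrt_nonneg C]
  linarith

theorem sq_add_le {A : Set E} {f h : E → ℂ} (hf : MemLp f 2 (volume.restrict A))
    (hh : MemLp h 2 (volume.restrict A)) :
    sq A f ≤ 2 * sq A (fun y => f y - h y) + 2 * sq A h := by
  unfold sq
  rw [← integral_const_mul, ← integral_const_mul, ← integral_add]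
  · refine integral_mono_of_nonneg (Eventually.of_forall (fun _ => by positivity)) ?_
      (Eventually.of_forall (fun y => ?_))
    · exact (((hf.sub hh).norm.integrable_sq).const_mul 2).add ((hh.norm.integrable_sq).const_mul 2)
    · simp only
      have h1 : ‖f y‖ ≤ ‖f y - h y‖ + ‖h y‖ := by
        have := norm_add_le (f y - h y) (h y)
        simpa using this
      have h2 := norm_nonneg (f y)
      nlinarith [sq_nonneg (‖f y - h y‖ - ‖h y‖), norm_nonneg (f y - h y), norm_nonneg (h y)]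
  · exact ((hf.sub hh).norm.integrable_sq).const_mul 2
  · exact (hh.norm.integrable_sq).const_mul 2

theorem vnull {D S : Set E} (hD : IsOpen D) (hb : Bornology.IsBounded D) (h : InnerShift D)
    (hS : IsClosed S) (hS0 : volume S = 0) {v : ℕ → E → ℂ} {g : ℕ → Fin 3 → E → ℂ}
    (hv : ∀ n, H1 D (v n) (g n)) {C : ℝ} (hC : ∀ n, en D (v n) (g n) ≤ C)
    (hK : ∀ K, IsCompact K → K ⊆ D \ S → Tendsto (fun n => sq K (v n)) atTop (𝓝 0)) :
    Tendsto (fun n => sq D (v n)) atTop (𝓝 0) := by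
  refine tendsto_of_subseq_tendsto (fun ns hns => ?_)
  obtain ⟨φ, f, hφ, hf, hlim⟩ := rellich hD hb h (v := fun n => v (ns n)) (g := fun n => g (ns n))
    (fun n => hv _) (fun n => hC _)
  have hsub : Tendsto (fun n => ns (φ n)) atTop atTop := hns.comp hφ.tendsto_atTop
  have hlim' : Tendsto (fun n => sq D (fun y => v (ns (φ n)) y - f y)) atTop (𝓝 0) := hlim
  have hdiff : ∀ n, MemLp (fun y => v n y - f y) 2 (volume.restrict D) := fun n =>
    (hv n).memLp.sub hf
  -- the limit vanishes on compact sets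
  have h1 : ∀ K, IsCompact K → K ⊆ D \ S → sq K f = 0 := by
    intro K hKc hKs
    have hKD : K ⊆ D := hKs.trans sdiff_subset
    refine le_antisymm ?_ (sq_nonneg' _ _)
    have h2 : ∀ n, sq K f ≤ 2 * sq D (fun y => v (ns (φ n)) y - f y) +
        2 * sq K (v (ns (φ n))) := by
      intro n
      have h3 := sq_add_le (A := K) (hf.mono_measure (Measure.restrict_mono hKD le_rfl))
        ((hv (ns (φ n))).memLp.mono_measure (Measure.restrict_mono hKD le_rfl))
      have h4 : sq K (fun y => f y - v (ns (φ n)) y) = sq K (fun y => v (ns (φ n)) y - f y) := by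
        unfold sq
        congr 1
        ext y
        rw [norm_sub_rev]
      have h5 := sq_le_of_subset (hdiff (ns (φ n))) hKD
      rw [h4] at h3
      linarith
    have h6 : Tendsto (fun n => 2 * sq D (fun y => v (ns (φ n)) y - f y) +
        2 * sq K (v (ns (φ n)))) atTop (𝓝 (2 * 0 + 2 * 0)) :=
      (hlim'.const_mul 2).add (((hK K hKc hKs).comp hsub).const_mul 2)
    have h7 := ge_of_tendsto' h6 h2
    linarith
  have hf0 : sq D f = 0 := by
    refine le_antisymm ?_ (sq_nonneg' _ _)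
    refine le_of_forall_pos_le_add (fun ε hε => ?_)
    obtain ⟨K, hKc, hKs, hKε⟩ := exists_compact_small hD hS hS0 hf hε
    rw [sq_split hf hKc.measurableSet (hKs.trans sdiff_subset), h1 K hKc hKs]
    exact add_le_add le_rfl hKε
  refine ⟨φ, ?_⟩
  have h8 : Tendsto (fun n => 2 * sq D (fun y => v (ns (φ n)) y - f y) + 2 * sq D f) atTop
      (𝓝 0) := by
    rw [hf0]
    simpa using hlim'.const_mul 2
  exact squeeze_zero (fun n => sq_nonneg' _ _) (fun n => sq_add_le (hv _).memLp hf) h8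

end Pool.Agent.helper27.Probe
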