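import Pool.Agent.helper27.Probe.Blow
import Pool.Agent.helper27.Probe.Null
import Pool.Agent.helper53.Probe.M16
import Pool.Agent.helper61.Probe.M8
import Pool.Agent.helper61.Probe.M2

open MeasureTheory Metric Set Filter Topology
open scoped ContDiff ENNReal

namespace Pool.Agent.helper27.Probe

theorem main_assembly {k : ℝ} {Ω D : Set E} {G : E → ℂ} {x : E} {σ : ℝ → E} {v : ℕ → E → ℂ}
    {g : ℕ → Fin 3 → E → ℂ} (hG : Geometry Ω D) (hk : 0 < k) (hN : NotEigen k Ω D)
    (hS : Singular k G) (hx : x ∈ Ω) (hσ : Needle Ω x σ) (hs : NeedleSeq k Ω G x σ v g)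
    (hc : x ∈ closure D ∨ x ∉ closure D ∧ (σ '' Icc 0 1 ∩ D).Nonempty) 
    (u : ℕ → E → ℂ) (h : ℕ → Fin 3 → E → ℂ)
    (hu : ∀ n, MixedSol k Ω D (v n) (g n) (u n) (h n)) :
    Tendsto (fun n => (indicator k Ω D (v n) (g n) (u n) (h n)).re) atTop atTop := by
  set U := Ω \ closure D with hUdef
  have hDΩ : D ⊆ Ω := subset_closure.trans hG.sub
  have hDb : Bornology.IsBounded D := hG.bddΩ.subset hDΩ
  have hxσ : x ∈ σ '' Icc 0 1 := ⟨1, by simp, hσ.finish⟩
  have hfr : volume (frontier D) = 0 := null_frontier hG.openD (shift_D hG)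
  set w : ℕ → E → ℂ := fun n y => u n y - v n y with hw
  set l : ℕ → Fin 3 → E → ℂ := fun n i y => h n i y - g n i y with hl
  set N2 : ℕ → ℝ := fun n => en D (v n) (g n) + en U (w n) (l n) with hN2
  have hblow := blowup hG hk hS hx hσ hs hc
  have hN2top : Tendsto N2 atTop atTop :=
    tendsto_atTop_mono (fun n => le_add_of_nonneg_right (en_nonneg _ _ _)) hblow
  -- normalisation
  set c : ℕ → ℂ := fun n => (((√(max 1 (N2 n)))⁻¹ : ℝ) : ℂ) with hc_def
  have hcn : ∀ n, ‖c n‖ ^ 2 = (max 1 (N2 n))⁻¹ := by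
    intro n
    have h1 : (0 : ℝ) ≤ max 1 (N2 n) := le_trans zero_le_one (le_max_left _ _)
    rw [hc_def]
    simp only [Complex.norm_real, norm_inv, Real.norm_eq_abs, abs_of_nonneg (Real.sqrt_nonneg _)]
    rw [inv_pow, Real.sq_sqrt h1]
  have hc0 : Tendsto (fun n => ‖c n‖ ^ 2) atTop (𝓝 0) := by
    simp only [hcn]
    apply Tendsto.inv_tendsto_atTop
    exact tendsto_atTop_mono (fun n => le_max_right _ _) hN2top
  have hbd : ∀ n, ‖c n‖ ^ 2 * N2 n ≤ 1 := by
    intro n
    rw [hcn]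
    rw [inv_mul_le_iff₀ (lt_of_lt_of_le zero_lt_one (le_max_left _ _))]
    rw [mul_one]
    exact le_max_right _ _
  have hDe : ∀ n, en D (fun y => c n * v n y) (fun i y => c n * g n i y) ≤ 1 := by
    intro n
    rw [en_smul]
    refine le_trans (mul_le_mul_of_nonneg_left ?_ (by positivity)) (hbd n)
    exact le_add_of_nonneg_right (en_nonneg _ _ _)
  have hUe : ∀ n, en U (fun y => c n * w n y) (fun i y => c n * l n i y) ≤ 1 := by
    intro n
    rw [en_smul]
    refine le_trans (mul_le_mul_of_nonneg_left ?_ (by positivity)) (hbd n)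
    exact le_add_of_nonneg_left (en_nonneg _ _ _)
  have hvD : ∀ n, H1 D (v n) (g n) := fun n => H1.mono hG.openΩ hG.openD (hs.h1 n) hDΩ
  have hnull := needle_null hσ
  have hsqK : ∀ K, IsCompact K → K ⊆ D \ σ '' Icc 0 1 →
      Tendsto (fun n => sq K (fun y => c n * v n y)) atTop (𝓝 0) ∧
      ∀ i, Tendsto (fun n => sq K (fun y => c n * g n i y)) atTop (𝓝 0) := by
    intro K hK hKD
    obtain ⟨C, hC⟩ := bdd_compact hxσ hS hs hK (fun y hy => ⟨hDΩ (hKD hy).1, (hKD hy).2⟩)
    have h0 : Tendsto (fun n => ‖c n‖ ^ 2 * C) atTop (𝓝 0) := by simpa using hc0.mul_const C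
    refine ⟨squeeze_zero (fun n => sq_nonneg' _ _) (fun n => ?_) h0, fun i =>
      squeeze_zero (fun n => sq_nonneg' _ _) (fun n => ?_) h0⟩
    · rw [sq_smul]
      exact mul_le_mul_of_nonneg_left (hC n).1 (by positivity)
    · rw [sq_smul]
      exact mul_le_mul_of_nonneg_left ((hC n).2 i) (by positivity)
  have hv0 : Tendsto (fun n => sq D (fun y => c n * v n y)) atTop (𝓝 0) :=
    vnull hG.openD hDb (shift_D hG) hnull.1 hnull.2 (fun n => (hvD n).smul (c n)) hDe
      (fun K hK hKD => (hsqK K hK hKD).1)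
  have hw0 : Tendsto (fun n => sq U (fun y => c n * w n y)) atTop (𝓝 0) := by
    refine wnull hG hk hN (h := fun n i y => c n * l n i y) (C := 1)
      (fun n => (hu n).bdry.smul (c n)) hUe ?_
    intro φ hφ
    have hφD : ∀ i, MemLp (pd i φ) 2 (volume.restrict D) := fun i => (hφ.H1 hG.openD).memLp_grad i
    have hφ0 : MemLp φ 2 (volume.restrict D) := (hφ.H1 hG.openD).memLp
    have hvD' : ∀ n, H1 D (fun y => c n * v n y) (fun i y => c n * g n i y) :=
      fun n => (hvD n).smul (c n)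
    have e1 : ∀ n, (∫ y in U, ∑ i, (c n * l n i y) * pd i φ y) -
        (k : ℂ) ^ 2 * ∫ y in U, (c n * w n y) * φ y =
        (∑ i, ∫ y in D, (c n * g n i y) * pd i φ y) -
          (k : ℂ) ^ 2 * ∫ y in D, (c n * v n y) * φ y := by
      intro n
      have := weak_split_of hG hfr (hs.h1 n) (hs.helm n) (hu n) hφ
      rw [← integral_finsetSum]
      · have h2 : ∀ (A : Set E) (f : E → ℂ) (F : Fin 3 → E → ℂ),
            (∫ y in A, ∑ i, (c n * F i y) * pd i φ y) - (k : ℂ) ^ 2 * ∫ y in A, (c n * f y) * φ y =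
            c n * ((∫ y in A, ∑ i, F i y * pd i φ y) - (k : ℂ) ^ 2 * ∫ y in A, f y * φ y) := by
          intro A f F
          have h3 : (fun y => ∑ i, (c n * F i y) * pd i φ y) =
              fun y => c n * ∑ i, F i y * pd i φ y := by
            funext y
            rw [Finset.mul_sum]
            exact Finset.sum_congr rfl (fun i _ => mul_assoc _ _ _)
          have h4 : (fun y => (c n * f y) * φ y) = fun y => c n * (f y * φ y) := by
            funext y
            exact mul_assoc _ _ _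
          rw [h3, h4, integral_const_mul, integral_const_mul]
          ring
        rw [h2 U (w n) (l n), h2 D (v n) (g n), this]
      · intro i _
        exact ((hvD' n).memLp_grad i).integrable_mul (hφD i)
    refine Tendsto.congr (fun n => (e1 n).symm) ?_
    have t1 : ∀ i, Tendsto (fun n => ∫ y in D, (c n * g n i y) * pd i φ y) atTop (𝓝 0) := by
      intro i
      refine functional_null hG.openD hnull.1 hnull.2 (fun n => (hvD' n).memLp_grad i) (C := 1) ?_
        (fun K hK hKD => (hsqK K hK hKD).2 i) (hφD i)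
      intro n
      refine le_trans ?_ (hDe n)
      unfold en
      refine le_trans ?_ (le_add_of_nonneg_left (sq_nonneg' _ _))
      exact Finset.single_le_sum (f := fun i => sq D (fun y => c n * g n i y))
        (fun i _ => sq_nonneg' _ _) (Finset.mem_univ i)
    have t2 : Tendsto (fun n => ∫ y in D, (c n * v n y) * φ y) atTop (𝓝 0) := by
      refine functional_null hG.openD hnull.1 hnull.2 (fun n => (hvD' n).memLp) (C := 1) ?_
        (fun K hK hKD => (hsqK K hK hKD).1) hφ0
      intro n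
      refine le_trans ?_ (hDe n)
      exact le_add_of_nonneg_right (Finset.sum_nonneg (fun i _ => sq_nonneg' _ _))
    have t3 : Tendsto (fun n => (∑ i, ∫ y in D, (c n * g n i y) * pd i φ y) -
          (k : ℂ) ^ 2 * ∫ y in D, (c n * v n y) * φ y) atTop
          (𝓝 ((∑ i : Fin 3, (0 : ℂ)) - (k : ℂ) ^ 2 * 0)) :=
      (tendsto_finsetSum _ (fun i _ => t1 i)).sub (t2.const_mul _)
    simpa using t3
  -- the indicator
  have hI : ∀ n, (indicator k Ω D (v n) (g n) (u n) (h n)).re =
      N2 n - (k ^ 2 + 1) * (sq D (v n) + sq U (w n)) := by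
    intro n
    rw [indicator_eq_of hG (null_frontier hG.openD (shift_D hG)) (hs.h1 n) (hu n), Complex.ofReal_re]
    simp only [hN2, hw, hl]
    ring
  have hsmall : Tendsto (fun n => (k ^ 2 + 1) * (sq D (fun y => c n * v n y) +
      sq U (fun y => c n * w n y))) atTop (𝓝 0) := by
    simpa using (hv0.add hw0).const_mul (k ^ 2 + 1)
  have hev : ∀ᶠ n in atTop, N2 n / 2 ≤ (indicator k Ω D (v n) (g n) (u n) (h n)).re := by
    filter_upwards [hsmall.eventually (Iio_mem_nhds (show (0 : ℝ) < 1 / 2 by norm_num)),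
      hN2top.eventually_ge_atTop 1] with n h1 h2
    rw [hI n]
    rw [sq_smul, sq_smul, hcn n, max_eq_right h2, ← mul_add] at h1
    have hpos : 0 < N2 n := lt_of_lt_of_le zero_lt_one h2
    have h3 : (k ^ 2 + 1) * (sq D (v n) + sq U (w n)) < N2 n / 2 := by
      have h4 : (k ^ 2 + 1) * ((N2 n)⁻¹ * (sq D (v n) + sq U (w n))) * N2 n <
          1 / 2 * N2 n := mul_lt_mul_of_pos_right h1 hpos
      have h5 : (k ^ 2 + 1) * ((N2 n)⁻¹ * (sq D (v n) + sq U (w n))) * N2 n =
          (k ^ 2 + 1) * (sq D (v n) + sq U (w n)) := by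
        field_simp
      rw [h5] at h4
      linarith
    linarith
  exact tendsto_atTop_mono' _ hev (hN2top.atTop_div_const (by norm_num))

theorem main {k : ℝ} {Ω D : Set E} {G : E → ℂ} {x : E} {σ : ℝ → E} {v : ℕ → E → ℂ}
    {g : ℕ → Fin 3 → E → ℂ} (hG : Geometry Ω D) (hk : 0 < k) (hN : NotEigen k Ω D)
    (hS : Singular k G) (hx : x ∈ Ω) (hσ : Needle Ω x σ) (hs : NeedleSeq k Ω G x σ v g)
    (hc : x ∈ closure D ∨ x ∉ closure D ∧ (σ '' Icc 0 1 ∩ D).Nonempty) :
    (∀ n, ∃ u h, MixedSol k Ω D (v n) (g n) u h) ∧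
    ∀ (u : ℕ → E → ℂ) (h : ℕ → Fin 3 → E → ℂ),
      (∀ n, MixedSol k Ω D (v n) (g n) (u n) (h n)) →
      (∀ n, (indicator k Ω D (v n) (g n) (u n) (h n)).im = 0) ∧
      Tendsto (fun n => (indicator k Ω D (v n) (g n) (u n) (h n)).re) atTop atTop := by
  refine ⟨fun n => exists_sol hG hk hN (hs.h1 n), fun u h hu => ⟨fun n => ?_,
    main_assembly hG hk hN hS hx hσ hs hc u h hu⟩⟩
  rw [indicator_eq_of hG (null_frontier hG.openD (shift_D hG)) (hs.h1 n) (hu n), Complex.ofReal_im]

end Pool.Agent.helper27.Probe
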